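import Pool.Agent.X62.HD.Exist

/-!
# The number of Hamilton cycles is not determined by linearly small decks

For every `c < 1` there are infinitely many `n` and pairs of `n`-vertex graphs with the same
`⌊c n⌋`-vertex decks such that one graph has a Hamilton cycle and the other one has none.
-/

namespace Pool.Agent.Results.MP_9d0e7f_co.HamDeck

/-- The sets `S` of `t` vertices of `G` such that the induced subgraph `G[S]` is isomorphic
to `F`. -/
def copies {V : Type} (G : SimpleGraph V) {t : ℕ} (F : SimpleGraph (Fin t)) : Set (Set V) :=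
  {S | S.ncard = t ∧ Nonempty (G.induce S ≃g F)}

/-- `G` and `G'` have the same `t`-vertex deck (the same multiset of isomorphism classes of induced
`t`-vertex subgraphs): every graph `F` on `t` vertices has the same number of induced copies
in `G` and in `G'`. -/
def SameDeck {V W : Type} (G : SimpleGraph V) (G' : SimpleGraph W) (t : ℕ) : Prop :=
  ∀ F : SimpleGraph (Fin t), (copies G F).ncard = (copies G' F).ncard

/-- The number `h(G)` of Hamilton cycles of `G`: the number of connected spanning subgraphs of `G`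
in which every vertex has exactly two neighbours. -/
noncomputable def hamCount {V : Type} (G : SimpleGraph V) : ℕ :=
  {H : SimpleGraph V | H ≤ G ∧ H.Connected ∧ ∀ v, (H.neighborSet v).ncard = 2}.ncard

open Pool.Agent.X62 in
theorem ham_of_iso {V W : Type} {G : SimpleGraph V} {G' : SimpleGraph W} (φ : G ≃g G')
    (h : (HD.hamSet G).Nonempty) : (HD.hamSet G').Nonempty := by
  obtain ⟨H, h1, h2, h3⟩ := h
  let e : V ≃ W := φ.toEquiv
  let ψ : H ≃g H.map e.toEmbedding := SimpleGraph.Iso.map e H
  refine ⟨H.map e.toEmbedding, ?_, ?_, ?_⟩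
  · intro a b hab
    obtain ⟨-, x, y, hxy, rfl, rfl⟩ := hab
    exact φ.map_adj_iff.2 (h1 hxy)
  · exact ψ.connected_iff.1 h2
  · intro w
    obtain ⟨v, rfl⟩ := ψ.surjective w
    rw [← h3 v, ← Set.ncard_image_of_injective (H.neighborSet v) ψ.injective]
    congr 1
    ext x
    constructor
    · intro hx
      obtain ⟨y, rfl⟩ := ψ.surjective x
      exact ⟨y, ψ.map_adj_iff.1 hx, rfl⟩
    · rintro ⟨y, hy, rfl⟩
      exact ψ.map_adj_iff.2 hy

/-- **Theorem.** For every real `c` with `0 ≤ c < 1` there are arbitrarily large `n` and two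
graphs `G`, `G'` with vertex set `Fin n` that have the same `⌊c n⌋`-vertex deck, although `G` has
a Hamilton cycle and `G'` has none. -/
theorem result : ∀ c : ℝ, 0 ≤ c → c < 1 → ∀ N : ℕ, ∃ n : ℕ, N ≤ n ∧
    ∃ G G' : SimpleGraph (Fin n), SameDeck G G' ⌊c * n⌋₊ ∧ hamCount G ≠ 0 ∧ hamCount G' = 0 := by
  open Pool.Agent.X62.HD in
  intro c hc0 hc1 N
  -- choose `k`
  obtain ⟨k, hk⟩ := exists_nat_gt (1 / (1 - c) + 3)
  have hc : 0 < 1 - c := by linarith
  have hkc : 1 < k * (1 - c) := by
    have h1 : 1 / (1 - c) < k := by linarith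
    rwa [div_lt_iff₀ hc] at h1
  have hk3 : 3 ≤ k := by
    have h1 : 0 < 1 / (1 - c) := by positivity
    have h2 : (3 : ℝ) < k := by linarith
    exact_mod_cast h2.le
  -- choose `L`
  set C : ℕ := Nat.card (Core k) with hC
  have hδ : 0 < k * (1 - c) - 1 := by linarith
  obtain ⟨L, hL⟩ := exists_nat_gt (c * C / (k * (1 - c) - 1) + N + 1)
  have hL0 : 0 ≤ c * C / (k * (1 - c) - 1) := by positivity
  have hLN : N + 1 ≤ L := by
    have : ((N + 1 : ℕ) : ℝ) < L := by push_cast; linarith
    exact_mod_cast this.le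
  have hLC : c * C < L * (k * (1 - c) - 1) := by
    have h1 : c * C / (k * (1 - c) - 1) < L := by
      have : (0 : ℝ) ≤ N := Nat.cast_nonneg N
      linarith
    rwa [div_lt_iff₀ hδ] at h1
  have hcard : Nat.card (Y k L × Fin 3) = (C + k * L) * 3 := by
    rw [Nat.card_prod, Nat.card_sum, Nat.card_prod]
    simp [hC]
  set n := (C + k * L) * 3 with hn
  have e : Y k L × Fin 3 ≃ Fin n := by
    have := Finite.equivFin (Y k L × Fin 3)
    rwa [hcard] at this
  obtain ⟨π, π', h1, h2⟩ := main_pair k L hk3 (by omega)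
  refine ⟨n, ?_, (und (Arc (L := L) π)).map e.toEmbedding,
    (und (Arc (L := L) π')).map e.toEmbedding, ?_, ?_, ?_⟩
  · have : 1 * L ≤ k * L := Nat.mul_le_mul_right L (by omega)
    omega
  · have ht : ⌊c * (n : ℝ)⌋₊ < (k - 1) * (3 * L) := by
      rw [Nat.floor_lt (by positivity), hn]
      push_cast [Nat.cast_sub (by omega : 1 ≤ k)]
      nlinarith
    intro F
    have h3 := sameDeck_und k L _ ht π π' F
    have e1 := copies_ncard_of_iso (SimpleGraph.Iso.map e (und (Arc (L := L) π))) F
    have e2 := copies_ncard_of_iso (SimpleGraph.Iso.map e (und (Arc (L := L) π'))) F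
    exact e1.symm.trans (h3.trans e2)
  · have h3 := ham_of_iso (SimpleGraph.Iso.map e (und (Arc (L := L) π))) h1
    exact (Set.ncard_pos (Set.toFinite _)).2 h3 |>.ne'
  · have h3 : hamSet ((und (Arc (L := L) π')).map e.toEmbedding) = ∅ := by
      by_contra hcon
      have h4 := ham_of_iso (SimpleGraph.Iso.map e (und (Arc (L := L) π'))).symm
        (Set.nonempty_iff_ne_empty.2 hcon)
      rw [h2] at h4
      exact Set.not_nonempty_empty h4
    show (hamSet _).ncard = 0
    rw [h3, Set.ncard_empty]

end Pool.Agent.Results.MP_9d0e7f_co.HamDeck
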